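import Pool.Agent.Lib.MP_e0e7d6_al.Main
import Pool.Agent.Lib.MP_e0e7d6_al.Reduce

namespace Pool.Agent.Results.MP_e0e7d6_al.Undecidable

/-- A nonempty word over the letters `0, 1, 2, ...` is coded by its first letter and the list of
its other letters; an identity is a pair of words; the input is a finite list of identities.
No algorithm decides whether the variety defined by the input contains an infinite finitely
generated periodic semigroup. -/
theorem result : ¬ ComputablePred fun E : List ((ℕ × List ℕ) × (ℕ × List ℕ)) =>
    ∃ (S : Type) (_ : Semigroup S),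
      (∀ e ∈ E, ∀ φ : ℕ → S, e.1.2.foldl (fun s i => s * φ i) (φ e.1.1) =
        e.2.2.foldl (fun s i => s * φ i) (φ e.2.1)) ∧
      Infinite S ∧ (∃ T : Finset S, Subsemigroup.closure (T : Set S) = ⊤) ∧
      ∀ s : S, ((Subsemigroup.closure {s} : Subsemigroup S) : Set S).Finite :=
  Pool.Agent.Lib.MP_e0e7d6_al.undecidable_of_monsters Pool.Agent.Lib.MP_e0e7d6_al.monsters

end Pool.Agent.Results.MP_e0e7d6_al.Undecidable
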