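import Pool.Agent.Lib.MP_e0e7d6_al.InsCore

namespace Pool.Agent.Results.MP_e0e7d6_al.WithRank

open Pool.Agent.Lib.MP_e0e7d6_al

/-- A nonempty word over the letters `0, 1, 2, ...` is coded by its first letter and the list of
its other letters; an identity is a pair of words; the input is a finite list of identities.
For each fixed `k ≥ 2`, the inputs whose variety contains an infinite periodic semigroup with at
most `k` generators do not form a recursively enumerable set. -/
theorem result (k : ℕ) (hk : 2 ≤ k) : ¬ REPred fun E : List ((ℕ × List ℕ) × (ℕ × List ℕ)) =>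
    ∃ (S : Type) (_ : Semigroup S),
      (∀ e ∈ E, ∀ φ : ℕ → S, e.1.2.foldl (fun s i => s * φ i) (φ e.1.1) =
        e.2.2.foldl (fun s i => s * φ i) (φ e.2.1)) ∧
      Infinite S ∧ (∃ T : Finset S, T.card ≤ k ∧ Subsemigroup.closure (T : Set S) = ⊤) ∧
      ∀ s : S, ((Subsemigroup.closure {s} : Subsemigroup S) : Set S).Finite := by
  classical
  intro h
  obtain ⟨N, E, hN, hE, hc⟩ := ins_core
  refine ComputablePred.halting_problem_not_re 0 (REPred.of_eq (re_comp h hE) fun c => ?_)
  constructor
  · rintro ⟨S, inst, hS, hinf, ⟨T, -, hT⟩, -⟩ hd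
    obtain ⟨G, rfl, h1, h2⟩ := (hc c).1 hd S hS
    have := finite_of_comm hN h1 h2 T hT
    exact not_finite S
  · intro hd
    obtain ⟨G, inst, a, b, hab, hinf, h1, hS⟩ := (hc c).2 hd
    refine ⟨G, inferInstance, hS, hinf, ⟨{a, b}, Finset.card_le_two.trans hk, ?_⟩, fun s => ?_⟩
    · rw [Finset.coe_pair]
      exact semigroup_closure_pair hN h1 hab
    · refine (fin_order hN h1 s).finite_powers.subset fun x hx => ?_
      induction hx using Subsemigroup.closure_induction with
      | mem x hx => rw [hx]; exact Submonoid.mem_powers s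
      | mul x y _ _ hx hy => exact Submonoid.mul_mem _ hx hy

end Pool.Agent.Results.MP_e0e7d6_al.WithRank
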