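import Pool.Agent.Lib.MP_e0e7d6_al.NoWitness

namespace Pool.Agent.Results.MP_e0e7d6_al.WitnessNotEffective

/-- Words and identities are coded as in the decision problem: a nonempty word over the letters
`0, 1, 2, ...` is its first letter and the list of its other letters.  There is one finite list
of identities whose variety contains an infinite finitely generated periodic semigroup, while
every member with a generating sequence for which inequality of words is recursively enumerable
is commutative, and finite when the generating sequence takes finitely many values. -/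
theorem result : ∃ E : List ((ℕ × List ℕ) × (ℕ × List ℕ)),
    (∃ (S : Type) (_ : Semigroup S),
      (∀ e ∈ E, ∀ φ : ℕ → S, e.1.2.foldl (fun s i => s * φ i) (φ e.1.1) =
        e.2.2.foldl (fun s i => s * φ i) (φ e.2.1)) ∧
      Infinite S ∧ (∃ T : Finset S, Subsemigroup.closure (T : Set S) = ⊤) ∧
      ∀ s : S, ((Subsemigroup.closure {s} : Subsemigroup S) : Set S).Finite) ∧
    ∀ (S : Type) [Semigroup S],
      (∀ e ∈ E, ∀ φ : ℕ → S, e.1.2.foldl (fun s i => s * φ i) (φ e.1.1) =
        e.2.2.foldl (fun s i => s * φ i) (φ e.2.1)) →
      ∀ γ : ℕ → S, Subsemigroup.closure (Set.range γ) = ⊤ →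
        (REPred fun e : (ℕ × List ℕ) × (ℕ × List ℕ) =>
          e.1.2.foldl (fun s i => s * γ i) (γ e.1.1) ≠
            e.2.2.foldl (fun s i => s * γ i) (γ e.2.1)) →
        (∀ x y : S, x * y = y * x) ∧ ((Set.range γ).Finite → Finite S) :=
  Pool.Agent.Lib.MP_e0e7d6_al.NW.no_witness

end Pool.Agent.Results.MP_e0e7d6_al.WitnessNotEffective
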