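import Pool.Agent.Lib.MP_e0e7d6_al.InsFin

namespace Pool.Agent.Results.MP_e0e7d6_al.XFiniteGenerator

/-- A nonempty word over the letters `0, 1, 2, ...` is coded by its first letter and the list of
its other letters; an identity is a pair of words; the input is a finite list of identities.
The inputs whose variety is not generated by one finite semigroup (no finite semigroup satisfies
exactly the identities that follow from the input) do not form a recursively enumerable set. -/
theorem result : ¬ REPred fun E : List ((ℕ × List ℕ) × (ℕ × List ℕ)) =>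
    ¬ ∃ (F : Type) (_ : Semigroup F), Finite F ∧ ∀ u v : ℕ × List ℕ,
      (∀ φ : ℕ → F, u.2.foldl (fun s i => s * φ i) (φ u.1) =
        v.2.foldl (fun s i => s * φ i) (φ v.1)) ↔
      ∀ (S : Type) [Semigroup S],
        (∀ e ∈ E, ∀ φ : ℕ → S, e.1.2.foldl (fun s i => s * φ i) (φ e.1.1) =
          e.2.2.foldl (fun s i => s * φ i) (φ e.2.1)) →
        ∀ φ : ℕ → S, u.2.foldl (fun s i => s * φ i) (φ u.1) =
          v.2.foldl (fun s i => s * φ i) (φ v.1) :=
  Pool.Agent.Lib.MP_e0e7d6_al.finGen_not_re

end Pool.Agent.Results.MP_e0e7d6_al.XFiniteGenerator
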